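import Pool.Agent.helper89.PU.Spec1

/-!
# Row pv:ITR: the iteration
-/

set_option autoImplicit false

namespace Pool.Agent.PV

open Matrix Polynomial Pool.Agent.GO Pool.Agent.AR Pool.Agent.RG Pool.Agent.HZ Pool.Agent.DS
  Pool.Agent.AX Pool.Agent.UM Pool.Agent.PU MeasureTheory NumberField

theorem ITR_two (p : ℕ) (B : ℕ → ℝ) (e : ℕ → ℕ) (N : ℕ) (η β : ℝ) (hη0 : 0 < η) (hη1 : η ≤ 1)
    (hanti : Antitone B) (hmono : Monotone e) (hN : ∀ r, e r ≤ N)
    (hdbl : ∀ r, 2 ≤ r → B r < η → η * B r ≤ B (2 * r))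
    (hpush : ∀ r t R, 2 ≤ r → r ≤ t → t < R → (∀ s, r ≤ s → s < R → e s = e r) →
      B t ≤ max (B r / p ^ (t - r)) (B R))
    (hβ : ∀ b, (∀ R, b ≤ B R) → b ≤ β) (r₀ : ℕ) (h2 : ∀ r, r₀ ≤ r → 2 ≤ r) (hpos : ∀ r, r₀ ≤ r → 0 < B r)
    (hlt : ∀ r, r₀ ≤ r → B r < η) (hlt2 : ∀ r, r₀ ≤ r → 1 / (p : ℝ) ^ r < η) :
    ∀ k a, r₀ ≤ a → N - e a = k → η ^ (k + 1) * B a ≤ β := by
  intro k
  induction k using Nat.strong_induction_on with
  | _ k ih =>
    intro a ha hk
    have hBa := hpos a ha
    have ha2 := h2 a ha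
    have h1 : B a / (p : ℝ) ^ a < η * B a := by
      have h := mul_lt_mul_of_pos_right (hlt2 a ha) hBa
      have h' : 1 / (p : ℝ) ^ a * B a = B a / (p : ℝ) ^ a := by ring
      rwa [h'] at h
    have h3 : η * B a ≤ B (2 * a) := hdbl a ha2 (hlt a ha)
    have h4 : 2 * a - a = a := by omega
    have hηk : η ^ (k + 1) ≤ η := by
      have h := pow_le_pow_of_le_one hη0.le hη1 (show 1 ≤ k + 1 by omega)
      rwa [pow_one] at h
    by_cases hs : ∀ s, a ≤ s → e s = e a
    · have h5 : ∀ R, B (2 * a) ≤ B R := by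
        intro R
        by_cases hR : 2 * a < R
        · have h6 := hpush a (2 * a) R ha2 (by omega) hR fun s hs1 _ => hs s hs1
          rw [h4] at h6
          rcases le_max_iff.1 h6 with h7 | h7
          · linarith
          · exact h7
        · exact hanti (not_lt.1 hR)
      have h6 := hβ _ h5
      calc η ^ (k + 1) * B a ≤ η * B a := mul_le_mul_of_nonneg_right hηk hBa.le
        _ ≤ β := h3.trans h6
    · push Not at hs
      classical
      have hs' : ∃ s, a ≤ s ∧ e s ≠ e a := hs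
      have hf := Nat.find_spec hs'
      have hmin : ∀ s, a ≤ s → s < Nat.find hs' → e s = e a := by
        intro s hs1 hs2
        by_contra h
        exact Nat.find_min hs' hs2 ⟨hs1, h⟩
      set a' := Nat.find hs' with ha'
      have h5 : e a + 1 ≤ e a' := by
        have h := hmono hf.1
        have h' := hf.2
        omega
      have h6 : η * B a ≤ B a' := by
        by_cases hR : 2 * a < a'
        · have h6 := hpush a (2 * a) a' ha2 (by omega) hR hmin
          rw [h4] at h6
          rcases le_max_iff.1 h6 with h7 | h7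
          · linarith
          · exact h3.trans h7
        · exact h3.trans (hanti (not_lt.1 hR))
      have h7 : e a' ≤ N := hN a'
      have h8 := ih (N - e a') (by omega) a' (ha.trans hf.1) rfl
      have h9 : η ^ (k + 1) ≤ η ^ (N - e a' + 1) * η := by
        rw [← pow_succ]
        exact pow_le_pow_of_le_one hη0.le hη1 (by omega)
      calc η ^ (k + 1) * B a ≤ (η ^ (N - e a' + 1) * η) * B a := mul_le_mul_of_nonneg_right h9 hBa.le
        _ = η ^ (N - e a' + 1) * (η * B a) := by ring
        _ ≤ η ^ (N - e a' + 1) * B a' := mul_le_mul_of_nonneg_left h6 (pow_nonneg hη0.le _)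
        _ ≤ β := h8

theorem ITR : ITR_stmt := by
  classical
  intro p B e N η β hp hη0 hη1 hB0 hB1 hanti hmono hN hstep hdbl hpush hβ
  have hp0 : (0 : ℝ) < p := by exact_mod_cast (by omega : 0 < p)
  have hp1 : (1 : ℝ) ≤ p := by exact_mod_cast (by omega : 1 ≤ p)
  have h0 : 0 ≤ β := hβ 0 fun R => hB0 R
  by_cases hB2 : B 2 = 0
  · rw [hB2]
    simpa using h0
  have hB2' : 0 < B 2 := lt_of_le_of_ne (hB0 2) (Ne.symm hB2)
  have hind : ∀ k, B 2 / (p : ℝ) ^ k ≤ B (2 + k) := by
    intro k
    induction k with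
    | zero => simp
    | succ k ih =>
      have h := hstep (2 + k) (by omega)
      calc B 2 / (p : ℝ) ^ (k + 1) = B 2 / (p : ℝ) ^ k / p := by
            rw [pow_succ, div_div]
        _ ≤ B (2 + k) / p := by gcongr
        _ ≤ B (2 + k + 1) := h
        _ = B (2 + (k + 1)) := by rw [add_assoc]
  have hpos : ∀ r, 2 ≤ r → 0 < B r := by
    intro r hr
    obtain ⟨k, rfl⟩ := Nat.exists_eq_add_of_le hr
    exact lt_of_lt_of_le (by positivity) (hind k)
  have hinv : ∀ r s : ℕ, r ≤ s → 1 / (p : ℝ) ^ s ≤ 1 / (p : ℝ) ^ r := by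
    intro r s hrs
    exact one_div_le_one_div_of_le (by positivity) (pow_le_pow_right₀ hp1 hrs)
  have hB2p : B 2 / p ≤ 1 := by
    rw [div_le_one hp0]
    exact (hB1 2).trans hp1
  have hB2p0 : 0 ≤ B 2 / p := by positivity
  by_cases hex : ∃ r, 2 ≤ r ∧ B r < η ∧ 1 / (p : ℝ) ^ r < η
  · have hf := Nat.find_spec hex
    have hmin : ∀ r, r < Nat.find hex → 2 ≤ r → B r < η → ¬ 1 / (p : ℝ) ^ r < η := by
      intro r hr h1 h2 h3
      exact Nat.find_min hex hr ⟨h1, h2, h3⟩
    set r₀ := Nat.find hex with hr₀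
    have key := ITR_two p B e N η β hη0 hη1 hanti hmono hN hdbl hpush hβ r₀ (fun r hr => hf.1.trans hr)
      (fun r hr => hpos r (hf.1.trans hr)) (fun r hr => (hanti hr).trans_lt hf.2.1)
      (fun r hr => (hinv _ _ hr).trans_lt hf.2.2) (N - e r₀) r₀ le_rfl rfl
    have h1 : η * (B 2 / p) ≤ B r₀ := by
      by_cases h2 : r₀ = 2
      · rw [h2]
        calc η * (B 2 / p) ≤ 1 * (B 2 / p) := mul_le_mul_of_nonneg_right hη1 hB2p0
          _ = B 2 / p := one_mul _
          _ ≤ B 2 := div_le_self hB2'.le hp1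
      · have h3 : 2 < r₀ := lt_of_le_of_ne hf.1 (Ne.symm h2)
        obtain ⟨k, hk⟩ := Nat.exists_eq_add_of_lt h3
        have hk' : r₀ - 1 = 2 + k := by omega
        have h4 : B (2 + k) / p ≤ B r₀ := by
          have h := hstep (2 + k) (by omega)
          have h' : 2 + k + 1 = r₀ := by omega
          rwa [h'] at h
        by_cases h5 : B (2 + k) < η
        · have h6 := hmin (2 + k) (by omega) (by omega) h5
          rw [not_lt] at h6
          have h7 := hind k
          have h8 : η * B 2 ≤ B 2 / (p : ℝ) ^ k := by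
            calc η * B 2 ≤ 1 / (p : ℝ) ^ (2 + k) * B 2 := mul_le_mul_of_nonneg_right h6 hB2'.le
              _ ≤ 1 / (p : ℝ) ^ k * B 2 := mul_le_mul_of_nonneg_right (hinv _ _ (by omega)) hB2'.le
              _ = B 2 / (p : ℝ) ^ k := by ring
          calc η * (B 2 / p) = (η * B 2) / p := by ring
            _ ≤ B (2 + k) / p := by
              gcongr
              exact h8.trans h7
            _ ≤ B r₀ := h4
        · rw [not_lt] at h5
          calc η * (B 2 / p) = (η * B 2) / p := by ring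
            _ ≤ B (2 + k) / p := by
              gcongr
              calc η * B 2 ≤ η * 1 := mul_le_mul_of_nonneg_left (hB1 2) hη0.le
                _ = η := mul_one _
                _ ≤ B (2 + k) := h5
            _ ≤ B r₀ := h4
    have h9 : η ^ (N + 1) ≤ η ^ (N - e r₀ + 1) := pow_le_pow_of_le_one hη0.le hη1 (by omega)
    calc B 2 / p * η ^ (N + 2) = η ^ (N + 1) * (η * (B 2 / p)) := by ring
      _ ≤ η ^ (N + 1) * B r₀ := mul_le_mul_of_nonneg_left h1 (pow_nonneg hη0.le _)
      _ ≤ η ^ (N - e r₀ + 1) * B r₀ := mul_le_mul_of_nonneg_right h9 (hB0 _)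
      _ ≤ β := key
  · push Not at hex
    obtain ⟨n, hn⟩ := exists_pow_lt_of_lt_one hη0 (show (1 / (p : ℝ)) < 1 by
      rw [div_lt_one hp0]
      exact_mod_cast (by omega : 1 < p))
    rw [_root_.one_div_pow] at hn
    have h1 : ∀ R, η ≤ B R := by
      intro R
      by_contra h
      rw [not_le] at h
      have h2 : B (max R (max n 2)) < η := (hanti (le_max_left _ _)).trans_lt h
      have h3 := hex (max R (max n 2)) ((le_max_right _ _).trans (le_max_right _ _)) h2
      have h4 := hinv n (max R (max n 2)) ((le_max_left _ _).trans (le_max_right _ _))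
      linarith
    have h2 : η ≤ β := hβ _ h1
    calc B 2 / p * η ^ (N + 2) ≤ 1 * η ^ (N + 2) := mul_le_mul_of_nonneg_right hB2p (pow_nonneg hη0.le _)
      _ = η ^ (N + 2) := one_mul _
      _ ≤ η ^ 1 := pow_le_pow_of_le_one hη0.le hη1 (by omega)
      _ = η := pow_one _
      _ ≤ β := h2

end Pool.Agent.PV
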